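import Pool.Agent.H8.AV3.Stmts
import Pool.Agent.H95.AVR.CNF

/-!
# AV3, module FIN: the counting inequality
-/

set_option autoImplicit false

namespace Pool.AV3

open Polynomial Matrix Pool.AVR

namespace FINaux

theorem two_ne {F : Type} [Field F] (h2 : (2 : F) ≠ 0) : (2 : RatFunc F) ≠ 0 := by
  have : (2 : RatFunc F) = algebraMap F[X] (RatFunc F) 2 := (map_ofNat _ 2).symm
  rw [this]
  intro h
  have h3 := (map_eq_zero_iff _ (RatFunc.algebraMap_injective F)).mp h
  have h4 : (C (2 : F) : F[X]) = 0 := by rw [← h3]; exact map_ofNat C 2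
  exact h2 (by simpa using h4)

theorem three_ne {F : Type} [Field F] (h2 : (3 : F) ≠ 0) : (3 : RatFunc F) ≠ 0 := by
  have : (3 : RatFunc F) = algebraMap F[X] (RatFunc F) 3 := (map_ofNat _ 3).symm
  rw [this]
  intro h
  have h3 := (map_eq_zero_iff _ (RatFunc.algebraMap_injective F)).mp h
  have h4 : (C (3 : F) : F[X]) = 0 := by rw [← h3]; exact map_ofNat C 3
  exact h2 (by simpa using h4)

theorem am_ofNat {F : Type} [Field F] (k : ℕ) [k.AtLeastTwo] :
    algebraMap F[X] (RatFunc F) (OfNat.ofNat k) = OfNat.ofNat k := map_ofNat _ k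

theorem sep_of_ell {F : Type} [Field F] (hDSC : DSCStmt) (h2 : (2 : F) ≠ 0) {n : ℕ}
    {f : F[X] × F[X] × F[X]} (hf : f ∈ Ell F n) : (cubK f).Separable := by
  rw [cubK, (hDSC (RatFunc F) (two_ne h2) _ _ _).1]
  have : disc (algebraMap F[X] (RatFunc F) f.1) (algebraMap F[X] (RatFunc F) f.2.1)
      (algebraMap F[X] (RatFunc F) f.2.2) =
      algebraMap F[X] (RatFunc F) (disc f.1 f.2.1 f.2.2) := by
    simp only [disc, map_add, map_mul, map_pow, map_sub]
    rw [am_ofNat 4, am_ofNat 18, am_ofNat 27]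
  rw [this]
  intro h
  exact hf.2 ((map_eq_zero_iff _ (RatFunc.algebraMap_injective F)).mp h)

theorem onC_of {K : Type} [Field K] {a b c x y : K} (h : (E a b c).toAffine.Nonsingular x y) :
    OnC a b c x y := by
  have := (WeierstrassCurve.Affine.equation_iff _ _).mp h.1
  simp only [E] at this
  unfold OnC
  linear_combination this

theorem ratfunc_infinite (F : Type) [Field F] : Infinite (RatFunc F) :=
  Infinite.of_injective _ (RatFunc.algebraMap_injective F)

/-- translation of a curve by a polynomial -/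
noncomputable def trl {F : Type} [Field F] (f : F[X] × F[X] × F[X]) (p : F[X]) :
    F[X] × F[X] × F[X] :=
  (f.1 + 3 * p, f.2.1 + 2 * f.1 * p + 3 * p ^ 2, f.2.2 + f.2.1 * p + f.1 * p ^ 2 + p ^ 3)

open Classical in
theorem rep_exists (hKEY : KEYStmt) (hSRT : SRTStmt) (hCSP : CSPStmt) (hDSC : DSCStmt)
    {F : Type} [Field F] [Finite F] (h2 : (2 : F) ≠ 0) {n : ℕ} {f : F[X] × F[X] × F[X]}
    (hf : f ∈ Ell F n) (P : EK f) (hP : ¬ ∃ T : EK f, P = T + T + T) :
    ∃ (α β : ℕ) (c : Fin 10 → F[X]) (x y : RatFunc F)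
      (h : (E (algebraMap F[X] (RatFunc F) f.1) (algebraMap F[X] (RatFunc F) f.2.1)
        (algebraMap F[X] (RatFunc F) f.2.2)).toAffine.Nonsingular x y)
      (A : Matrix (Fin 3) (Fin 3) (RatFunc F)),
      α ≤ n ∧ β ≤ n ∧ c ∈ Vd n (dv α β) ∧ P = WeierstrassCurve.Affine.Point.some x y h ∧
        Eqv A (FK f x y) (mp c) := by
  rcases P with _ | ⟨x, y, h⟩
  · exact absurd ⟨0, by
      change (0 : EK f) = 0 + 0 + 0
      simp⟩ hP
  · have hy : y ≠ 0 := by
      intro hy
      apply hP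
      refine ⟨WeierstrassCurve.Affine.Point.some x y h, ?_⟩
      have : (WeierstrassCurve.Affine.Point.some x y h : EK f) +
          WeierstrassCurve.Affine.Point.some x y h = 0 := by
        apply WeierstrassCurve.Affine.Point.add_self_of_Y_eq
        rw [WeierstrassCurve.Affine.negY, hy]
        simp [E]
      rw [this, zero_add]
    have hon : OnK f x y := onC_of h
    obtain ⟨d, c, hc, g, hg⟩ := hKEY F h2 n f hf.1 x y hon hy
    obtain ⟨α, β, c', hc', g', hg'⟩ := hSRT F n d c hc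
    have hE : Eqv (g * g'.map (algebraMap F[X] (RatFunc F))) (FK f x y) (mp c') :=
      hg.trans (hg'.map (algebraMap F[X] (RatFunc F)))
    obtain ⟨h1, h3⟩ := hCSP F h2 n α β f (sep_of_ell hDSC h2 hf) x y h hP c' hc' _ hE
    exact ⟨α, β, c', x, y, h, _, h1, h3, hc', rfl, hE⟩

open Classical in
theorem uniq1 (hINJ : INJStmt) (hUNI : UNIStmt) (hDSC : DSCStmt)
    {F : Type} [Field F] (h2 : (2 : F) ≠ 0) {n : ℕ} {f₀ f : F[X] × F[X] × F[X]}
    (hf₀ : f₀ ∈ Ell F n) (hf : f ∈ Fam F n) (x₀ y₀ x y : RatFunc F)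
    (h₀ : (E (algebraMap F[X] (RatFunc F) f₀.1) (algebraMap F[X] (RatFunc F) f₀.2.1)
        (algebraMap F[X] (RatFunc F) f₀.2.2)).toAffine.Nonsingular x₀ y₀)
    (h : OnK f x y) (B : Matrix (Fin 3) (Fin 3) (RatFunc F))
    (hB : Eqv B (FK f₀ x₀ y₀) (FK f x y)) : ∃ p : F[X], p.natDegree ≤ 2 * n ∧ f = trl f₀ p := by
  have := ratfunc_infinite F
  obtain ⟨T, η, h'', e1, e2, e3, -, -, -⟩ := hINJ (RatFunc F) (two_ne h2) _ _ _ _ _ _
    (sep_of_ell hDSC h2 hf₀) x₀ y₀ h₀ x y h B hB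
  obtain ⟨p, hp, rfl⟩ := hUNI F n f₀ f hf₀.1 hf η e1 e2 e3
  refine ⟨p, hp, ?_⟩
  have inj := RatFunc.algebraMap_injective F
  refine Prod.ext (inj ?_) (Prod.ext (inj ?_) (inj ?_))
  · rw [e1]; simp only [trl, map_add, map_mul]; rw [am_ofNat 3]
  · rw [e2]; simp only [trl, map_add, map_mul, map_pow]; rw [am_ofNat 3, am_ofNat 2]
  · rw [e3]; simp only [trl, map_add, map_mul, map_pow]

open Classical in
theorem uniq2 (hINJ : INJStmt) (hDSC : DSCStmt)
    {F : Type} [Field F] (h2 : (2 : F) ≠ 0) {n : ℕ} {f : F[X] × F[X] × F[X]}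
    (hf : f ∈ Gd (F := F) n) (x₀ y₀ x y : RatFunc F)
    (h₀ : (E (algebraMap F[X] (RatFunc F) f.1) (algebraMap F[X] (RatFunc F) f.2.1)
        (algebraMap F[X] (RatFunc F) f.2.2)).toAffine.Nonsingular x₀ y₀)
    (h : (E (algebraMap F[X] (RatFunc F) f.1) (algebraMap F[X] (RatFunc F) f.2.1)
        (algebraMap F[X] (RatFunc F) f.2.2)).toAffine.Nonsingular x y)
    (B : Matrix (Fin 3) (Fin 3) (RatFunc F))
    (hB : Eqv B (FK f x₀ y₀) (FK f x y)) : ∃ T : EK f,
      (WeierstrassCurve.Affine.Point.some x₀ y₀ h₀ : EK f) - (T + T + T) =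
        WeierstrassCurve.Affine.Point.some x y h := by
  have := ratfunc_infinite F
  obtain ⟨T, η, h'', e1, e2, e3, e4, -, -⟩ := hINJ (RatFunc F) (two_ne h2) _ _ _ _ _ _
    (sep_of_ell hDSC h2 hf.1) x₀ y₀ h₀ x y (onC_of h) B hB
  have hη : η = 0 := by
    have h3 : 3 * η = 0 := by linear_combination -e1
    rcases hf.2.2 with h4 | h4
    · exact (mul_eq_zero.mp h3).resolve_left (three_ne h4)
    · have h5 : 2 * algebraMap F[X] (RatFunc F) f.1 * η = 0 := by
        linear_combination -e2 - η * h3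
      have h6 : algebraMap F[X] (RatFunc F) f.1 ≠ 0 := fun h7 =>
        h4 ((map_eq_zero_iff _ (RatFunc.algebraMap_injective F)).mp h7)
      exact (mul_eq_zero.mp h5).resolve_left (mul_ne_zero (two_ne h2) h6)
  subst hη
  refine ⟨T, ?_⟩
  rw [e4]
  simp

open Classical in
theorem uniq3 (hSTB : STBStmt) (hDSC : DSCStmt)
    {F : Type} [Field F] (h2 : (2 : F) ≠ 0) {n : ℕ} {f : F[X] × F[X] × F[X]}
    (hf : f ∈ Gd (F := F) n) (x y : RatFunc F)
    (h : (E (algebraMap F[X] (RatFunc F) f.1) (algebraMap F[X] (RatFunc F) f.2.1)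
        (algebraMap F[X] (RatFunc F) f.2.2)).toAffine.Nonsingular x y)
    (A : Matrix (Fin 3) (Fin 3) (RatFunc F)) (c c' : Fin 10 → F[X])
    (g₀ g : Matrix (Fin 3) (Fin 3) F[X]) (hA : Eqv A (FK f x y) (mp c))
    (hg₀ : Eqv g₀ c c') (hg : Eqv g c c') :
    ∃ u : F, u ≠ 0 ∧ g = (C u : F[X]) • g₀ := by
  have := ratfunc_infinite F
  set φ := algebraMap F[X] (RatFunc F) with hφ
  have h1 : Eqv (A * g₀.map φ) (FK f x y) (mp c') := hA.trans (hg₀.map φ)
  have h3 : Eqv (A * g.map φ) (FK f x y) (mp c') := hA.trans (hg.map φ)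
  have h4 : Eqv (A * g.map φ * (A * g₀.map φ)⁻¹) (FK f x y) (FK f x y) := h3.trans h1.symm
  have hcond : (3 : RatFunc F) ≠ 0 ∨ φ f.1 ≠ 0 := by
    rcases hf.2.2 with h5 | h5
    · exact Or.inl (three_ne h5)
    · exact Or.inr fun h7 => h5 ((map_eq_zero_iff _ (RatFunc.algebraMap_injective F)).mp h7)
  obtain ⟨r, hr0, hr⟩ := hSTB (RatFunc F) (two_ne h2) _ _ _ (sep_of_ell hDSC h2 hf.1) hf.2.1
    hcond x y (onC_of h) _ h4
  -- `g = r g₀` over `K`
  have hAdet : IsUnit A.det := hA.1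
  have h5 : A * g.map φ = r • (A * g₀.map φ) := by
    have h6 : A * g.map φ * (A * g₀.map φ)⁻¹ * (A * g₀.map φ) =
        r • (1 : Matrix (Fin 3) (Fin 3) (RatFunc F)) * (A * g₀.map φ) := by rw [hr]
    rw [Matrix.mul_assoc, Matrix.nonsing_inv_mul _ h1.1, Matrix.mul_one] at h6
    rw [h6, Matrix.smul_mul, Matrix.one_mul]
  have h6 : g.map φ = r • g₀.map φ := by
    have h7 : A⁻¹ * (A * g.map φ) = A⁻¹ * (r • (A * g₀.map φ)) := by rw [h5]
    rw [Matrix.mul_smul, ← Matrix.mul_assoc, ← Matrix.mul_assoc,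
      Matrix.nonsing_inv_mul _ hAdet, Matrix.one_mul, Matrix.one_mul] at h7
    exact h7
  -- `r` is a polynomial
  have h7 : (g * g₀⁻¹).map φ = r • (1 : Matrix (Fin 3) (Fin 3) (RatFunc F)) := by
    rw [Matrix.map_mul, h6, Matrix.smul_mul, ← Matrix.map_mul, Matrix.mul_nonsing_inv _ hg₀.1]
    simp
  have h8 : φ ((g * g₀⁻¹) 0 0) = r := by
    have := congrFun (congrFun h7 0) 0
    simpa using this
  set ρ := (g * g₀⁻¹) 0 0 with hρ
  have h9 : g = ρ • g₀ := by
    refine Matrix.ext fun i j => ?_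
    apply RatFunc.algebraMap_injective F
    have := congrFun (congrFun h6 i) j
    simp only [Matrix.map_apply, Matrix.smul_apply, smul_eq_mul] at this ⊢
    rw [map_mul, ← hφ, h8]
    exact this
  have h10 : IsUnit ρ := by
    have h11 : g.det = ρ ^ 3 * g₀.det := by
      rw [h9, Matrix.det_smul]
      simp
    have h12 : IsUnit (ρ ^ 3 * g₀.det) := by rw [← h11]; exact hg.1
    have h13 := isUnit_of_mul_isUnit_left h12
    exact (isUnit_pow_iff (by norm_num)).mp h13
  obtain ⟨u, hu, hu'⟩ := Polynomial.isUnit_iff.mp h10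
  refine ⟨u, hu.ne_zero, ?_⟩
  rw [hu', ← h9]

theorem eqv_inv {R : Type} [CommRing R] {c : Fin 10 → R} {g : Matrix (Fin 3) (Fin 3) R}
    (h : IsUnit g.det) : Eqv g c (Ring.inverse g.det • tsub c g) := by
  refine ⟨h, ?_⟩
  rw [smul_smul, Ring.mul_inverse_cancel _ h, one_smul]

theorem eqv_unique {R : Type} [CommRing R] {c c' : Fin 10 → R} {g : Matrix (Fin 3) (Fin 3) R}
    (h : Eqv g c c') : c' = Ring.inverse g.det • tsub c g := by
  rw [h.2, smul_smul, Ring.inverse_mul_cancel _ h.1, one_smul]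

end FINaux

open FINaux

open Classical in
theorem FIN_thm (hKEY : KEYStmt) (hSRT : SRTStmt) (hCSP : CSPStmt) (hACT : ACTStmt)
    (hINJ : INJStmt) (hUNI : UNIStmt) (hSTB : STBStmt) (hGRC : GRCStmt) (hCNV : CNVStmt)
    (hDSC : DSCStmt) : FINStmt := by
  intro F _ _ h2 n S hS
  set T : (f : F[X] × F[X] × F[X]) → Set (Mod3 (EK f)) := fun f => {ξ | ξ ≠ 0} with hT
  have mk_zero : ∀ (f : F[X] × F[X] × F[X]) (P Q : EK f), P = Q + Q + Q →
      (QuotientAddGroup.mk P : Mod3 (EK f)) = 0 := by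
    intro f P Q h
    rw [QuotientAddGroup.eq_zero_iff]
    refine ⟨Q, ?_⟩
    rw [h]
    change 3 • Q = Q + Q + Q
    rw [succ_nsmul, two_nsmul]
  have mk_eq : ∀ (f : F[X] × F[X] × F[X]) (P P' Q : EK f), P - (Q + Q + Q) = P' →
      (QuotientAddGroup.mk P : Mod3 (EK f)) = QuotientAddGroup.mk P' := by
    intro f P P' Q h
    have h1 := mk_zero f (P - P') Q (by rw [← h]; abel)
    rw [QuotientAddGroup.mk_sub, sub_eq_zero] at h1
    exact h1
  -- the choice of representatives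
  have key : ∀ p : (Σ f : ↥S, ↥(T f.1)), ∃ (α β : ℕ) (c : Fin 10 → F[X]) (x y : RatFunc F)
      (h : (E (algebraMap F[X] (RatFunc F) p.1.1.1) (algebraMap F[X] (RatFunc F) p.1.1.2.1)
        (algebraMap F[X] (RatFunc F) p.1.1.2.2)).toAffine.Nonsingular x y)
      (A : Matrix (Fin 3) (Fin 3) (RatFunc F)),
      α ≤ n ∧ β ≤ n ∧ c ∈ Vd n (dv α β) ∧
      QuotientAddGroup.mk (WeierstrassCurve.Affine.Point.some x y h) = p.2.1 ∧
      Eqv A (FK p.1.1 x y) (mp c) := by
    rintro ⟨⟨f, hf⟩, ⟨ξ, hξ⟩⟩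
    obtain ⟨P, rfl⟩ := QuotientAddGroup.mk_surjective ξ
    have hP : ¬ ∃ T : EK f, P = T + T + T := fun ⟨Q, hQ⟩ => hξ (mk_zero f P Q hQ)
    obtain ⟨α, β, c, x, y, h, A, h1, h3, h4, h5, h6⟩ :=
      rep_exists hKEY hSRT hCSP hDSC h2 (hS hf).1 P hP
    exact ⟨α, β, c, x, y, h, A, h1, h3, h4, by rw [← h5], h6⟩
  choose al be cc xx yy hns MM hal hbe hVd hmk hE using key
  have core_f : ∀ (p p' : (Σ f : ↥S, ↥(T f.1))) (g g' : Matrix (Fin 3) (Fin 3) F[X])
      (c : Fin 10 → F[X]), Eqv g (cc p) c → Eqv g' (cc p') c →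
      ∃ q : F[X], q.natDegree ≤ 2 * n ∧ p.1.1 = trl p'.1.1 q := by
    intro p p' g g' c hg hg'
    have h1 := (hE p).trans (hg.map (algebraMap F[X] (RatFunc F)))
    have h3 := (hE p').trans (hg'.map (algebraMap F[X] (RatFunc F)))
    exact uniq1 hINJ hUNI hDSC h2 (hS p'.1.2).1 (hS p.1.2).1.1 _ _ _ _ (hns p')
      (onC_of (hns p)) _ (h3.trans h1.symm)
  have core_x : ∀ (p p' : (Σ f : ↥S, ↥(T f.1))) (g g' : Matrix (Fin 3) (Fin 3) F[X])
      (c : Fin 10 → F[X]), Eqv g (cc p) c → Eqv g' (cc p') c → p.1.1 = p'.1.1 → p = p' := by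
    intro p p' g g' c hg hg' hff
    have h1 := (hE p).trans (hg.map (algebraMap F[X] (RatFunc F)))
    have h3 := (hE p').trans (hg'.map (algebraMap F[X] (RatFunc F)))
    have h4 := h1.trans h3.symm
    have s1 := hmk p
    have s2 := hmk p'
    generalize MM p * g.map (algebraMap F[X] (RatFunc F)) *
      (MM p' * g'.map (algebraMap F[X] (RatFunc F)))⁻¹ = B at h4
    clear h1 h3
    generalize hns p = n1 at s1
    generalize hns p' = n2 at s2
    generalize xx p = x1 at *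
    generalize xx p' = x2 at *
    generalize yy p = z1 at *
    generalize yy p' = z2 at *
    clear hg hg'
    obtain ⟨⟨f, hf⟩, ⟨ξ, hξ⟩⟩ := p
    obtain ⟨⟨f', hf'⟩, ⟨ξ', hξ'⟩⟩ := p'
    simp only at hff
    subst hff
    obtain ⟨Q, hQ⟩ := uniq2 hINJ hDSC h2 (hS hf) x1 z1 x2 z2 n1 n2 B h4
    have hxx : ξ = ξ' := by
      have := mk_eq f _ _ Q hQ
      simp only at s1 s2
      rw [← s1, ← s2]
      exact this
    subst hxx
    rfl
  have hVfin : ∀ α β : ℕ, α ≤ n → β ≤ n → (Vd n (dv α β) : Set (Fin 10 → F[X])).Finite :=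
    fun α β h1 h3 => (hCNV F n α β h1 h3).1
  have hUfin : (⋃ α ∈ Finset.range (n + 1), ⋃ β ∈ Finset.range (n + 1),
      (Vd n (dv α β) : Set (Fin 10 → F[X]))).Finite := by
    refine Set.Finite.biUnion (Finset.finite_toSet _) fun α hα => ?_
    refine Set.Finite.biUnion (Finset.finite_toSet _) fun β hβ => ?_
    exact hVfin α β (Nat.lt_succ_iff.mp (Finset.mem_range.mp (Finset.mem_coe.mp hα)))
      (Nat.lt_succ_iff.mp (Finset.mem_range.mp (Finset.mem_coe.mp hβ)))
  have hTfin : ∀ f ∈ S, (T f).Finite := by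
    intro f hf
    have hmem : ∀ p, cc p ∈ (⋃ α ∈ Finset.range (n + 1), ⋃ β ∈ Finset.range (n + 1),
      (Vd n (dv α β) : Set (Fin 10 → F[X]))) := by
      intro p
      simp only [Set.mem_iUnion]
      exact ⟨al p, Finset.mem_range.mpr (Nat.lt_succ_of_le (hal p)), be p,
        Finset.mem_range.mpr (Nat.lt_succ_of_le (hbe p)), hVd p⟩
    have hUf := hUfin.to_subtype
    have hinj : Function.Injective (fun ξ : ↥(T f) =>
        (⟨cc ⟨⟨f, hf⟩, ξ⟩, hmem _⟩ : (⋃ α ∈ Finset.range (n + 1), ⋃ β ∈ Finset.range (n + 1),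
      (Vd n (dv α β) : Set (Fin 10 → F[X])) : Set _))) := by
      intro ξ ξ' h
      have h1 : cc ⟨⟨f, hf⟩, ξ⟩ = cc ⟨⟨f, hf⟩, ξ'⟩ := by simpa using h
      have h3 := core_x ⟨⟨f, hf⟩, ξ⟩ ⟨⟨f, hf⟩, ξ'⟩ 1 1 (cc ⟨⟨f, hf⟩, ξ'⟩)
        (by rw [h1]; exact Eqv.refl _) (Eqv.refl _) rfl
      simpa using h3
    have hf2 : Finite ↥(T f) := Finite.of_injective _ hinj
    exact Set.toFinite (T f)
  have huniv : ∀ f : F[X] × F[X] × F[X], (Set.univ : Set (Mod3 (EK f))) = insert 0 (T f) := by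
    intro f
    ext ξ
    simp only [Set.mem_univ, Set.mem_insert_iff, hT, Set.mem_ofPred_eq, true_iff]
    exact Classical.em _
  have hMfin : ∀ f ∈ S, Finite (Mod3 (EK f)) := by
    intro f hf
    rw [← Set.finite_univ_iff, huniv]
    exact (hTfin f hf).insert 0
  refine ⟨hMfin, ?_⟩
  have hMcard : ∀ f ∈ S, ((Nat.card (Mod3 (EK f)) : ℝ) - 1) = ((T f).ncard : ℝ) := by
    intro f hf
    rw [← Set.ncard_univ, huniv, Set.ncard_insert_of_notMem (by simp [hT]) (hTfin f hf)]
    push_cast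
    ring
  rw [finsum_mem_congr rfl hMcard]
  have hSf : S.Finite := by
    have : (Fam F n).Finite := by
      rw [h95_fam]
      exact (h95D_finite F _).prod ((h95D_finite F _).prod (h95D_finite F _))
    exact this.subset fun f hf => (hS hf).1.1
  have : Fintype ↥S := hSf.fintype
  have : ∀ f : ↥S, Fintype ↥(T f.1) := fun f => (hTfin f.1 f.2).fintype
  have : Fintype F := Fintype.ofFinite F
  have hsum : ∑ᶠ f ∈ S, ((T f).ncard : ℝ) = (Fintype.card (Σ f : ↥S, ↥(T f.1)) : ℝ) := by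
    rw [← finsum_set_coe_eq_finsum_mem S, finsum_eq_sum_of_fintype, Fintype.card_sigma]
    push_cast
    refine Finset.sum_congr rfl fun f _ => ?_
    rw [← Nat.card_coe_set_eq, Nat.card_eq_fintype_card]
  have hGfin : ∀ α β, (G3 (dv α β) : Set (Matrix (Fin 3) (Fin 3) F[X])).Finite := (hGRC F).1
  have hG1 : ∀ α β, (1 : Matrix (Fin 3) (Fin 3) F[X]) ∈ G3 (dv α β) := by
    intro α β
    refine ⟨by rw [Matrix.det_one]; exact isUnit_one, ?_⟩
    intro i j h
    by_cases hij : i = j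
    · subst hij
      simp
    · exact absurd (Matrix.one_apply_ne hij) h
  have hcount : ∀ α ∈ Finset.range (n + 1), ∀ β ∈ Finset.range (n + 1),
      ((Finset.univ.filter (fun p : (Σ f : ↥S, ↥(T f.1)) => al p = α ∧ be p = β)).card : ℝ) ≤
        (Nat.card F : ℝ) ^ (2 * n + 1) * ((Nat.card F : ℝ) - 1) *
          (((Hit n (dv α β) S).ncard : ℝ) /
            (G3 (dv α β) : Set (Matrix (Fin 3) (Fin 3) F[X])).ncard) := by
    intro α hα β hβ
    have hα' : α ≤ n := Nat.lt_succ_iff.mp (Finset.mem_range.mp hα)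
    have hβ' : β ≤ n := Nat.lt_succ_iff.mp (Finset.mem_range.mp hβ)
    have hHf : (Hit n (dv α β) S).Finite := (hVfin α β hα' hβ').subset fun c hc => hc.1
    set Pm := Finset.univ.filter (fun p : (Σ f : ↥S, ↥(T f.1)) => al p = α ∧ be p = β) with hPm
    set Gm := (hGfin α β).toFinset with hGm
    have hGc : (G3 (dv α β) : Set (Matrix (Fin 3) (Fin 3) F[X])).ncard = Gm.card :=
      Set.ncard_eq_toFinset_card _ (hGfin α β)
    have hGpos : 0 < Gm.card := by
      refine Finset.card_pos.mpr ⟨1, ?_⟩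
      rw [hGm, Set.Finite.mem_toFinset]
      exact hG1 α β
    set φ : (Σ f : ↥S, ↥(T f.1)) × Matrix (Fin 3) (Fin 3) F[X] → (Fin 10 → F[X]) :=
      fun z => Ring.inverse z.2.det • tsub (cc z.1) z.2 with hφ
    have hφE : ∀ (p : (Σ f : ↥S, ↥(T f.1))) (g : Matrix (Fin 3) (Fin 3) F[X]), g ∈ Gm →
        Eqv g (cc p) (φ (p, g)) := by
      intro p g hg
      exact eqv_inv ((Set.Finite.mem_toFinset _).mp hg).1
    have hcard : (Pm ×ˢ Gm).card ≤
        (Nat.card F ^ (2 * n + 1) * (Nat.card F - 1)) * ((Pm ×ˢ Gm).image φ).card := by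
      refine Finset.card_le_mul_card_image _ _ ?_
      intro a ha
      obtain ⟨⟨p₀, g₀⟩, hz₀, rfl⟩ := Finset.mem_image.mp ha
      rw [Finset.mem_product] at hz₀
      set Fib := (Pm ×ˢ Gm).filter (fun z => φ z = φ (p₀, g₀)) with hFib
      have h1 : Fib.card ≤ (Nat.card F - 1) * (Fib.image (fun z => z.1.1.1)).card := by
        refine Finset.card_le_mul_card_image _ _ ?_
        intro f hf
        obtain ⟨⟨p₁, g₁⟩, hz₁, rfl⟩ := Finset.mem_image.mp hf
        have hz1 := Finset.mem_filter.mp hz₁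
        have hz1' := Finset.mem_product.mp hz1.1
        have hsub : Fib.filter (fun z => z.1.1.1 = p₁.1.1) ⊆
            ((Finset.univ : Finset F).erase 0).image (fun u => (p₁, (C u : F[X]) • g₁)) := by
          rintro ⟨p, g⟩ hz
          obtain ⟨hz2, hz3⟩ := Finset.mem_filter.mp hz
          have hz4 := Finset.mem_filter.mp hz2
          have hz5 := Finset.mem_product.mp hz4.1
          have e1 : Eqv g (cc p) (φ (p₀, g₀)) := by
            rw [← hz4.2]; exact hφE p g hz5.2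
          have e2 : Eqv g₁ (cc p₁) (φ (p₀, g₀)) := by
            have := hφE p₁ g₁ hz1'.2
            rw [hz1.2] at this
            exact this
          have hpp : p = p₁ := core_x p p₁ g g₁ _ e1 e2 hz3
          subst hpp
          obtain ⟨u, hu, hgu⟩ := uniq3 hSTB hDSC h2 (hS p.1.2) _ _ (hns p) _ (cc p) _ g₁ g
            (hE p) e2 e1
          exact Finset.mem_image.mpr ⟨u, Finset.mem_erase.mpr ⟨hu, Finset.mem_univ _⟩, by
            rw [← hgu]⟩
        refine (Finset.card_le_card hsub).trans (Finset.card_image_le.trans ?_)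
        rw [Finset.card_erase_of_mem (Finset.mem_univ _), Finset.card_univ,
          Nat.card_eq_fintype_card]
      have h3 : (Fib.image (fun z => z.1.1.1)).card ≤ Nat.card F ^ (2 * n + 1) := by
        have hD := h95D_finite F (2 * n)
        have hsub : Fib.image (fun z => z.1.1.1) ⊆ hD.toFinset.image (trl p₀.1.1) := by
          intro f hf
          obtain ⟨⟨p, g⟩, hz, rfl⟩ := Finset.mem_image.mp hf
          have hz4 := Finset.mem_filter.mp hz
          have hz5 := Finset.mem_product.mp hz4.1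
          have e1 : Eqv g (cc p) (φ (p₀, g₀)) := by
            rw [← hz4.2]; exact hφE p g hz5.2
          obtain ⟨q, hq, hfq⟩ := core_f p p₀ g g₀ _ e1 (hφE p₀ g₀ hz₀.2)
          exact Finset.mem_image.mpr ⟨q, (Set.Finite.mem_toFinset _).mpr hq, hfq.symm⟩
        refine (Finset.card_le_card hsub).trans (Finset.card_image_le.trans ?_)
        rw [← Set.ncard_eq_toFinset_card _ hD, h95D_ncard]
      calc Fib.card ≤ (Nat.card F - 1) * (Fib.image (fun z => z.1.1.1)).card := h1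
        _ ≤ (Nat.card F - 1) * Nat.card F ^ (2 * n + 1) := Nat.mul_le_mul_left _ h3
        _ = _ := Nat.mul_comm _ _
    have himg : ((Pm ×ˢ Gm).image φ).card ≤ (Hit n (dv α β) S).ncard := by
      rw [Set.ncard_eq_toFinset_card _ hHf]
      refine Finset.card_le_card ?_
      intro a ha
      obtain ⟨⟨p, g⟩, hz, rfl⟩ := Finset.mem_image.mp ha
      rw [Finset.mem_product] at hz
      have hg : g ∈ G3 (dv α β) := (Set.Finite.mem_toFinset _).mp hz.2
      obtain ⟨hp1, hp2⟩ := (Finset.mem_filter.mp hz.1).2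
      rw [Set.Finite.mem_toFinset]
      have hc : cc p ∈ Vd n (dv α β) := by
        have := hVd p
        rw [hp1, hp2] at this
        exact this
      obtain ⟨c', hc', hEc⟩ := hACT F n (dv α β) (cc p) g hc hg
      have hcc : c' = φ (p, g) := eqv_unique hEc
      rw [← hcc]
      exact ⟨hc', p.1.1, p.1.2, xx p, yy p, onC_of (hns p), _,
        (hE p).trans (hEc.map (algebraMap F[X] (RatFunc F)))⟩
    have hfinal : Pm.card * Gm.card ≤
        (Nat.card F ^ (2 * n + 1) * (Nat.card F - 1)) * (Hit n (dv α β) S).ncard := by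
      rw [← Finset.card_product]
      exact hcard.trans (Nat.mul_le_mul_left _ himg)
    have hq1 : 1 ≤ Nat.card F := Nat.card_pos
    have hfinal' : (Pm.card : ℝ) * Gm.card ≤
        ((Nat.card F : ℝ) ^ (2 * n + 1) * ((Nat.card F : ℝ) - 1)) *
          (Hit n (dv α β) S).ncard := by
      have := (Nat.cast_le (α := ℝ)).mpr hfinal
      push_cast [Nat.cast_sub hq1] at this
      exact this
    rw [hGc, ← mul_div_assoc, le_div_iff₀ (by exact_mod_cast hGpos)]
    exact hfinal'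
  calc ∑ᶠ f ∈ S, ((T f).ncard : ℝ) = (Fintype.card (Σ f : ↥S, ↥(T f.1)) : ℝ) := hsum
    _ = ∑ α ∈ Finset.range (n + 1), ∑ β ∈ Finset.range (n + 1),
        ((Finset.univ.filter (fun p : (Σ f : ↥S, ↥(T f.1)) => al p = α ∧ be p = β)).card : ℝ) := by
        rw [← Finset.card_univ, Finset.card_eq_sum_card_fiberwise (f := al)
          (t := Finset.range (n + 1))]
        · push_cast
          refine Finset.sum_congr rfl fun α _ => ?_
          rw [Finset.card_eq_sum_card_fiberwise (f := be) (t := Finset.range (n + 1))]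
          · push_cast
            refine Finset.sum_congr rfl fun β _ => ?_
            rw [Finset.filter_filter]
          · intro p _
            exact Finset.mem_coe.mpr (Finset.mem_range.mpr (Nat.lt_succ_of_le (hbe p)))
        · intro p _
          exact Finset.mem_coe.mpr (Finset.mem_range.mpr (Nat.lt_succ_of_le (hal p)))
    _ ≤ ∑ α ∈ Finset.range (n + 1), ∑ β ∈ Finset.range (n + 1),
        (Nat.card F : ℝ) ^ (2 * n + 1) * ((Nat.card F : ℝ) - 1) *
          (((Hit n (dv α β) S).ncard : ℝ) /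
            (G3 (dv α β) : Set (Matrix (Fin 3) (Fin 3) F[X])).ncard) :=
        Finset.sum_le_sum fun α hα => Finset.sum_le_sum fun β hβ => hcount α hα β hβ
    _ = _ := by
        rw [Finset.mul_sum]
        refine Finset.sum_congr rfl fun α _ => ?_
        rw [Finset.mul_sum]

end Pool.AV3
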